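import Pool.Agent.Y920.JB.Stm

/-! Project JB (helper920), job MEA: the category part. -/

set_option autoImplicit false

namespace Pool.Agent.Y888.JB

open Topology Set

theorem t_MEA : Pool.Agent.Y920.JB.S_MEA := by
  intro b E hE hk
  have hset : {w : ∀ n, Fin (b n + 1) | ∃ m, ∀ n ≥ m, w ∉ E n} =
      ⋃ m : ℕ, {w : ∀ n, Fin (b n + 1) | ∀ n ≥ m, w ∉ E n} := by
    ext w
    simp only [mem_ofPred_eq, mem_iUnion]
  rw [hset]
  refine isMeagre_iUnion fun m => IsNowhereDense.isMeagre ?_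
  have hcl : IsClosed {w : ∀ n, Fin (b n + 1) | ∀ n ≥ m, w ∉ E n} := by
    have h1 : {w : ∀ n, Fin (b n + 1) | ∀ n ≥ m, w ∉ E n} =
        ⋂ n : ℕ, ⋂ (_ : n ≥ m), (E n)ᶜ := by
      ext w
      simp only [mem_ofPred_eq, mem_iInter, mem_compl_iff]
    rw [h1]
    exact isClosed_iInter fun n => isClosed_iInter fun _ => (hE n).isClosed_compl
  rw [hcl.isNowhereDense_iff, Set.eq_empty_iff_forall_notMem]
  intro w hw
  obtain ⟨I, u, hu, hsub⟩ := isOpen_pi_iff.1 isOpen_interior w hw
  obtain ⟨k, hk'⟩ := hk (max m (I.sup id + 1)) w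
  have hw' : Function.update w (max m (I.sup id + 1)) k ∈
      interior {w : ∀ n, Fin (b n + 1) | ∀ n ≥ m, w ∉ E n} := by
    refine hsub fun i hi => ?_
    have h2 : i ≤ I.sup id := Finset.le_sup (f := id) hi
    have h3 : i < max m (I.sup id + 1) := lt_of_lt_of_le (Nat.lt_succ_of_le h2) (le_max_right _ _)
    rw [Function.update_of_ne h3.ne]
    exact (hu i hi).2
  have h4 := interior_subset hw'
  exact h4 _ (le_max_left _ _) (hk' _ (fun i hi => Function.update_of_ne hi.ne _ _)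
    (Function.update_self _ _ _))

end Pool.Agent.Y888.JB
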